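import Pool.Agent.H570R2.Mono.Stubs

/-! Task C: counting instructions (helper99) -/

namespace Pool.Agent.H570R2.Mono

open Pool.Agent.H549R2.Convex

namespace TaskC

theorem reads_append (p q : List Ins) : reads (p ++ q) = reads p + reads q := by
  induction p with
  | nil => simp [reads]
  | cons i p ih => simp [reads, ih, add_assoc]

theorem reals_append (p q : List Ins) : reals (p ++ q) = reals p + reals q := by
  induction p with
  | nil => simp [reals]
  | cons i p ih => simp [reals, ih, add_assoc]

theorem reads_rots (k : ℕ) : reads (rots k) = 0 ∧ reals (rots k) = 0 := by
  unfold rots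
  induction k with
  | zero => simp [reads, reals]
  | succ k ih =>
    rw [List.replicate_succ, List.flatten_cons, reads_append, reals_append, ih.1, ih.2]
    simp [reads, reals]

theorem reads_at (pre post : ℕ) (l : List Ins) :
    reads (at' pre post l) = reads l ∧ reals (at' pre post l) = reals l := by
  unfold at'
  rw [reads_append, reads_append, reals_append, reals_append, (reads_rots pre).1, (reads_rots pre).2,
    (reads_rots post).1, (reads_rots post).2]
  constructor <;> ring

theorem reads_mrg (k : ℕ) : reads (mrg k) = 0 ∧ reals (mrg k) = 0 := by
  unfold mrg
  rw [reads_append, reals_append]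
  have : reads (List.replicate k deq) = 0 ∧ reals (List.replicate k deq) = 0 := by
    induction k with
    | zero => simp [reads, reals]
    | succ k ih =>
      rw [List.replicate_succ]
      simp [reads, reals, ih.1, ih.2]
  rw [this.1, this.2]
  simp [reads, reals]

theorem reads_spl (a b : ℕ) : reads (spl a b) = 0 ∧ reals (spl a b) = 0 := by
  simp [spl, reads, reals]

theorem reads_fxb (pre post : ℕ) : reads (fxb pre post) = 0 ∧ reals (fxb pre post) = 0 := by
  unfold fxb
  rw [reads_append, reals_append, (reads_at _ _ _).1, (reads_at _ _ _).1, (reads_at _ _ _).2,
    (reads_at _ _ _).2, (reads_mrg 3).1, (reads_mrg 3).2]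
  simp [reads, reals]

theorem reads_adv (pre post : ℕ) : reads (adv pre post) = 0 ∧ reals (adv pre post) = 0 := by
  unfold adv
  simp only [reads_append, reals_append, (reads_at _ _ _).1, (reads_at _ _ _).2, (reads_spl _ _).1,
    (reads_spl _ _).2, (reads_fxb _ _).1, (reads_fxb _ _).2]
  simp

theorem reads_tok (β : Bool) : reads (tok β) = 1 ∧ reals (tok β) = 1 := by
  cases β <;> simp [tok, reads, reals]

theorem reads_cell (n : ℕ) (β : Bool) : reads (cell n β) = 1 ∧ reals (cell n β) = 1 := by
  unfold cell
  simp only [reads_append, reals_append, (reads_at _ _ _).1, (reads_at _ _ _).2, (reads_spl _ _).1,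
    (reads_spl _ _).2, (reads_fxb _ _).1, (reads_fxb _ _).2, (reads_adv _ _).1, (reads_adv _ _).2,
    (reads_mrg _).1, (reads_mrg _).2, (reads_rots _).1, (reads_rots _).2, (reads_tok _).1,
    (reads_tok _).2]
  simp

theorem length_cell (n : ℕ) (β : Bool) : (cell n β).length = (cell n false).length := by
  unfold cell
  have : (tok β).length = (tok false).length := by cases β <;> rfl
  simp only [List.length_append, this]

theorem reads_cells (n : ℕ) (r : List Bool) :
    reads (r.flatMap (cell n)) = r.length ∧ reals (r.flatMap (cell n)) = r.length := by
  induction r with
  | nil => simp [reads, reals]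
  | cons b r ih =>
    rw [List.flatMap_cons, reads_append, reals_append, ih.1, ih.2, (reads_cell n b).1,
      (reads_cell n b).2, List.length_cons]
    constructor <;> ring

theorem length_cells (n : ℕ) (r : List Bool) :
    (r.flatMap (cell n)).length = r.length * (cell n false).length := by
  induction r with
  | nil => simp
  | cons b r ih =>
    rw [List.flatMap_cons, List.length_append, ih, length_cell, List.length_cons]
    ring

theorem reads_rowP (n : ℕ) (r : List Bool) :
    reads (rowP n r) = r.length + 2 ∧ reals (rowP n r) = r.length + 1 := by
  unfold rowP
  simp only [reads_append, reals_append, (reads_rots _).1, (reads_rots _).2, (reads_cells n r).1,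
    (reads_cells n r).2]
  simp only [reads, reals]
  constructor
  · simp; ring
  · simp; ring

theorem length_rowP (n : ℕ) (r r' : List Bool) (h : r.length = r'.length) :
    (rowP n r).length = (rowP n r').length := by
  unfold rowP
  simp only [List.length_append, length_cells, h]

theorem reads_rows (n m : ℕ) (A : List (List Bool)) (h : ∀ r ∈ A, r.length = m) :
    reads (A.flatMap (rowP n)) = A.length * (m + 2) ∧
    reals (A.flatMap (rowP n)) = A.length * (m + 1) := by
  induction A with
  | nil => simp [reads, reals]
  | cons r A ih =>
    have ih' := ih fun r hr => h r (List.mem_cons_of_mem _ hr)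
    have hr := h r List.mem_cons_self
    rw [List.flatMap_cons, reads_append, reals_append, ih'.1, ih'.2, (reads_rowP n r).1,
      (reads_rowP n r).2, List.length_cons, hr]
    constructor <;> ring

theorem length_rows (n m : ℕ) (A : List (List Bool)) (h : ∀ r ∈ A, r.length = m) :
    (A.flatMap (rowP n)).length = A.length * (rowP n (List.replicate m false)).length := by
  induction A with
  | nil => simp
  | cons r A ih =>
    have ih' := ih fun r hr => h r (List.mem_cons_of_mem _ hr)
    have hr := h r List.mem_cons_self
    rw [List.flatMap_cons, List.length_append, ih', List.length_cons,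
      length_rowP n r (List.replicate m false) (by rw [hr, List.length_replicate])]
    ring

theorem reads_reals (k : ℕ) : reads (List.replicate k real) = 0 ∧ reals (List.replicate k real) = k := by
  induction k with
  | zero => simp [reads, reals]
  | succ k ih =>
    rw [List.replicate_succ]
    simp only [reads, reals, ih.1, ih.2]
    constructor
    · simp
    · simp; ring

end TaskC

open TaskC

theorem stub_count : StubCount := by
  intro A hA
  constructor
  · unfold prog
    have h1 := reads_rows A.length A.length A hA
    simp only [reads_append, reals_append, (reads_reals _).1, (reads_reals _).2, h1.1, h1.2]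
    simp only [reads, reals]
    simp
    ring
  · unfold prog
    have h1 := length_rows A.length A.length A hA
    have h2 := length_rows A.length A.length (List.replicate A.length (List.replicate A.length false))
      (by intro r hr; rw [List.eq_of_mem_replicate hr, List.length_replicate])
    simp only [List.length_append, List.length_replicate, h1, h2]

end Pool.Agent.H570R2.Mono
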