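import Pool.Agent.H570R2.Mono.Stubs

/-! Task S: sorted rows and columns, the staircase (helper99) -/

namespace Pool.Agent.H570R2.Mono

open Pool.Agent.H549R2.Convex

namespace TaskS

theorem step_inv (s : ℕ × ℕ) (i : Ins) (h : s.1 ≤ s.2) (h1 : 1 ≤ s.2) :
    (step s i).1 ≤ (step s i).2 ∧ 1 ≤ (step s i).2 ∧ s.1 ≤ (step s i).1 ∧ s.2 ≤ (step s i).2 := by
  unfold step
  split_ifs
  · simp only
    omega
  · exact ⟨h, h1, le_refl _, le_refl _⟩
  · simp only
    omega

theorem rws_ge (M : ℕ) (p : List Ins) : ∀ s : ℕ × ℕ, s.1 ≤ s.2 → 1 ≤ s.2 → ∀ r ∈ rws M p s,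
    s.1 ≤ r.1 ∧ s.2 ≤ r.2 + 1 ∧ r.1 ≤ r.2 + 1 := by
  induction p with
  | nil => intro s _ _ r hr; simp [rws] at hr
  | cons i p ih =>
    intro s h h1 r hr
    rw [rws, List.mem_append] at hr
    rcases hr with hr | hr
    · unfold rowsAt at hr
      split_ifs at hr with h2 h3
      · simp at hr
      · rw [List.mem_singleton] at hr
        subst hr
        simp only
        omega
      · have := List.eq_of_mem_replicate hr
        subst this
        simp only
        omega
    · obtain ⟨a1, a2, a3, a4⟩ := step_inv s i h h1
      obtain ⟨b1, b2, b3⟩ := ih _ a1 a2 r hr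
      exact ⟨a3.trans b1, a4.trans b2, b3⟩

theorem rws_pw (M : ℕ) (p : List Ins) : ∀ s : ℕ × ℕ, s.1 ≤ s.2 → 1 ≤ s.2 →
    (rws M p s).Pairwise (fun r s => r.1 ≤ s.1 ∧ r.2 ≤ s.2) := by
  induction p with
  | nil => intro s _ _; simp [rws]
  | cons i p ih =>
    intro s h h1
    obtain ⟨a1, a2, a3, a4⟩ := step_inv s i h h1
    rw [rws, List.pairwise_append]
    refine ⟨?_, ih _ a1 a2, ?_⟩
    · unfold rowsAt
      split_ifs
      · simp
      · simp
      · rw [List.pairwise_replicate]
        right
        exact ⟨le_refl _, le_refl _⟩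
    · intro r hr r' hr'
      obtain ⟨b1, b2, b3⟩ := rws_ge M p _ a1 a2 r' hr'
      unfold rowsAt at hr
      split_ifs at hr with h2 h3
      · simp at hr
      · rw [List.mem_singleton] at hr
        subst hr
        simp only
        refine ⟨a3.trans b1, ?_⟩
        omega
      · have := List.eq_of_mem_replicate hr
        subst this
        simp only
        refine ⟨a3.trans b1, ?_⟩
        have e : (step s i).2 = s.2 + 1 := by
          unfold step
          rw [if_neg (by omega), if_neg h3]
        omega

theorem cls_ge (M : ℕ) (p : List Ins) : ∀ s : ℕ × ℕ, s.1 ≤ s.2 → 1 ≤ s.2 → ∀ κ ∈ cls M p s,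
    s.2 ≤ κ ∧ κ + 1 ≤ s.2 + p.length := by
  induction p with
  | nil => intro s _ _ r hr; simp [cls] at hr
  | cons i p ih =>
    intro s h h1 κ hκ
    rw [cls, List.mem_append] at hκ
    have hlen : (i :: p).length = p.length + 1 := rfl
    rcases hκ with hκ | hκ
    · unfold colsAt at hκ
      split_ifs at hκ with h2 h3
      · simp at hκ
      · rw [List.mem_singleton] at hκ
        omega
      · have := List.eq_of_mem_replicate hκ
        omega
    · obtain ⟨a1, a2, a3, a4⟩ := step_inv s i h h1
      obtain ⟨b1, b2⟩ := ih _ a1 a2 κ hκ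
      have e : (step s i).2 ≤ s.2 + 1 := by
        unfold step
        split_ifs <;> simp
      omega

theorem cls_pw (M : ℕ) (p : List Ins) : ∀ s : ℕ × ℕ, s.1 ≤ s.2 → 1 ≤ s.2 →
    (cls M p s).Pairwise (· ≤ ·) := by
  induction p with
  | nil => intro s _ _; simp [cls]
  | cons i p ih =>
    intro s h h1
    obtain ⟨a1, a2, a3, a4⟩ := step_inv s i h h1
    rw [cls, List.pairwise_append]
    refine ⟨?_, ih _ a1 a2, ?_⟩
    · unfold colsAt
      split_ifs
      · simp
      · simp
      · rw [List.pairwise_replicate]
        right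
        exact le_refl _
    · intro κ hκ κ' hκ'
      obtain ⟨b1, -⟩ := cls_ge M p _ a1 a2 κ' hκ'
      unfold colsAt at hκ
      split_ifs at hκ with h2 h3
      · simp at hκ
      · rw [List.mem_singleton] at hκ
        omega
      · have := List.eq_of_mem_replicate hκ
        omega

theorem lengths (M : ℕ) (p : List Ins) : ∀ s : ℕ × ℕ,
    (rws M p s).length + reals p = (cls M p s).length + reads p := by
  induction p with
  | nil => intro s; simp [rws, cls, reads, reals]
  | cons i p ih =>
    intro s
    have h := ih (step s i)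
    rw [rws, cls, List.length_append, List.length_append, reads, reals]
    have h2 : (rowsAt M i s).length + (if i.1 = 1 then 1 else 0) =
        (colsAt M i s).length + (if i.1 = 2 then 1 else 0) := by
      unfold rowsAt colsAt
      rcases Nat.lt_or_ge i.1 3 with h3 | h3
      · interval_cases i.1 <;> simp
      · rw [if_neg (by omega), if_neg (by omega), if_neg (by omega), if_neg (by omega),
          if_neg (by omega), if_neg (by omega)]
        simp
    omega

theorem countP_sorted (P : ℕ → Bool) (hP : ∀ x y, x ≤ y → P y = true → P x = true) (l : List ℕ)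
    (hl : l.Pairwise (· ≤ ·)) : ∀ j < l.length, (P (l.getD j 0) = true ↔ j < l.countP P) := by
  induction l with
  | nil => intro j hj; simp at hj
  | cons x l ih =>
    intro j hj
    obtain ⟨h1, h2⟩ := List.pairwise_cons.1 hl
    by_cases hx : P x = true
    · rw [List.countP_cons_of_pos hx]
      cases j with
      | zero => simp [hx]
      | succ j =>
        have := ih h2 j (by simpa using hj)
        rw [List.getD_cons_succ, this]
        omega
    · have h0 : l.countP P = 0 := by
        rw [List.countP_eq_zero]
        intro y hy hPy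
        exact hx (hP x y (h1 y hy) hPy)
      rw [List.countP_cons_of_neg hx, h0]
      constructor
      · intro hj'
        exfalso
        cases j with
        | zero => exact hx (by simpa using hj')
        | succ j =>
          rw [List.getD_cons_succ] at hj'
          have hjl : j < l.length := by simpa using hj
          have hmem : l.getD j 0 ∈ l := by
            rw [List.getD_eq_getElem _ _ hjl]
            exact List.getElem_mem hjl
          exact hx (hP x _ (h1 _ hmem) hj')
      · intro h
        omega

theorem stair (RS : List (ℕ × ℕ)) (CL : List ℕ)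
    (hR : RS.Pairwise (fun r s => r.1 ≤ s.1 ∧ r.2 ≤ s.2)) (hC : CL.Pairwise (· ≤ ·)) :
    Stair (mat RS CL) := by
  have hlen : (mat RS CL).length = RS.length := by simp [mat]
  refine ⟨fun i => CL.countP (fun κ => decide (κ < (RS.getD i (0, 0)).1)),
    fun i => CL.countP (fun κ => decide (κ ≤ (RS.getD i (0, 0)).2)), ?_, ?_⟩
  · intro i j hij hj
    rw [hlen] at hj
    have hrel : (RS.getD i (0, 0)).1 ≤ (RS.getD j (0, 0)).1 ∧
        (RS.getD i (0, 0)).2 ≤ (RS.getD j (0, 0)).2 := by
      rcases hij.eq_or_lt with h | h
      · subst h; exact ⟨le_refl _, le_refl _⟩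
      · have hi : i < RS.length := by omega
        rw [List.getD_eq_getElem _ _ hi, List.getD_eq_getElem _ _ hj]
        exact List.pairwise_iff_getElem.1 hR i j hi hj h
    constructor
    · refine List.countP_mono_left fun κ _ h => ?_
      simp only [decide_eq_true_eq] at h ⊢
      omega
    · refine List.countP_mono_left fun κ _ h => ?_
      simp only [decide_eq_true_eq] at h ⊢
      omega
  · intro i hi j hj
    rw [hlen] at hi
    have hrow : ((mat RS CL).getD i []).length = CL.length := by
      rw [mat, List.getD_eq_getElem _ _ (by simpa using hi), List.getElem_map, List.length_map]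
    rw [hrow] at hj
    rw [ent_mat RS CL i j hi hj, Finset.mem_Icc]
    have h1 := countP_sorted (fun κ => decide (κ < (RS.getD i (0, 0)).1))
      (by intro x y hxy hy; simp only [decide_eq_true_eq] at hy ⊢; omega) CL hC j hj
    have h2 := countP_sorted (fun κ => decide (κ ≤ (RS.getD i (0, 0)).2))
      (by intro x y hxy hy; simp only [decide_eq_true_eq] at hy ⊢; omega) CL hC j hj
    simp only [decide_eq_true_eq] at h1 h2
    rw [← h2, ← not_lt, h1, not_lt]

end TaskS

open TaskS

theorem stub_sort : StubSort := by
  intro p M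
  have hr := rws_pw M p (1, 1) (le_refl _) (le_refl _)
  have hc := cls_pw M p (1, 1) (le_refl _) (le_refl _)
  refine ⟨hr, fun r h => (rws_ge M p (1, 1) (le_refl _) (le_refl _) r h).2.2, hc, fun κ hκ => ?_,
    fun h => ?_, stair _ _ hr hc⟩
  · have := (cls_ge M p (1, 1) (le_refl _) (le_refl _) κ hκ).2
    simp only at this
    omega
  · have := lengths M p (1, 1)
    omega

end Pool.Agent.H570R2.Mono
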